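import Pool.Agent.helper91.MM.SpecA

set_option autoImplicit false

/-!
# Row mm:COC (complements of countable sets)
-/

namespace Pool.Agent.MM

open Pool.Agent.Scheepers Filter Topology

theorem COC_fin (D : Set (ℕ → Bool)) (hD : D.Countable) :
    ∃ F : ℕ → Set (ℕ → Bool), (∀ k, (F k).Finite) ∧ Monotone F ∧ (∀ k, F k ⊆ D) ∧
      ∀ x ∈ D, ∃ k, x ∈ F k := by
  rcases D.eq_empty_or_nonempty with h | h
  · refine ⟨fun _ => ∅, fun _ => Set.finite_empty, fun _ _ _ => le_refl _, fun _ => Set.empty_subset _, ?_⟩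
    intro x hx
    rw [h] at hx
    exact absurd hx (Set.notMem_empty x)
  · obtain ⟨q, hq⟩ := hD.exists_eq_range h
    refine ⟨fun k => q '' {i | i ≤ k}, fun k => (Set.finite_le_nat k).image q, ?_, ?_, ?_⟩
    · intro k l hkl
      exact Set.image_mono fun i hi => le_trans hi hkl
    · intro k
      rw [hq]
      exact Set.image_subset_range _ _
    · intro x hx
      rw [hq] at hx
      obtain ⟨i, rfl⟩ := hx
      exact ⟨i, i, le_refl i, rfl⟩

theorem COC_supp_inter {b b' c : ℕ} {U V : Set (ℕ → Bool)} (hU : Supp b U) (hV : Supp b' V)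
    (hb : b ≤ c) (hb' : b' ≤ c) : Supp c (U ∩ V) := by
  intro u v huv hu
  exact ⟨hU u v (fun e he => huv e (lt_of_lt_of_le he hb)) hu.1,
    hV u v (fun e he => huv e (lt_of_lt_of_le he hb')) hu.2⟩

theorem COC : COC_stmt := by
  intro X C hC hX K hKc hKm hCK hXK
  rcases C.eq_empty_or_nonempty with hC0 | hC0
  · rw [hC0, Set.sdiff_empty]
    exact hX
  obtain ⟨c, hc⟩ := hC.exists_eq_range hC0
  obtain ⟨F, hFf, hFm, hFD, hFx⟩ := COC_fin ((X \ ⋃ J, K J) \ C) (hXK.mono Set.sdiff_subset)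
  -- the closed sets
  have hcl : ∀ k, IsClosed (K k ∪ F k) := fun k => (hKc k).union (hFf k).isClosed
  have hca : ∀ a k, c a ∈ (K k ∪ F k)ᶜ := by
    intro a k h
    have hcC : c a ∈ C := by
      rw [hc]
      exact ⟨a, rfl⟩
    rcases h with h | h
    · exact Set.disjoint_left.1 (hCK k) hcC h
    · exact (hFD k h).2 hcC
  have hm : ∀ a k, ∃ m, ∀ v : ℕ → Bool, (∀ e, e < m → v e = c a e) → v ∈ (K k ∪ F k)ᶜ := fun a k =>
    exists_cyl (hcl k).isOpen_compl (hca a k)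
  choose m hm using hm
  set V : ℕ → Set (ℕ → Bool) := fun k => {v | ∀ a, a ≤ k → ¬ ∀ e, e < m a k → v e = c a e} with hV
  set M : ℕ → ℕ := fun k => (Finset.range (k + 1)).sup fun a => m a k with hM
  have hVs : ∀ k, Supp (M k) (V k) := by
    intro k u v huv hu a ha hcon
    apply hu a ha
    intro e he
    have h1 : m a k ≤ M k :=
      Finset.le_sup (f := fun a => m a k) (Finset.mem_range.2 (Nat.lt_succ_of_le ha))
    rw [huv e (lt_of_lt_of_le he h1)]
    exact hcon e he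
  have hV1 : ∀ a k, a ≤ k → c a ∉ V k := fun a k hak h => h a hak fun _ _ => rfl
  have hV2 : ∀ x ∈ X \ C, ∃ k0, ∀ k, k0 ≤ k → x ∈ V k := by
    intro x hx
    have h1 : ∃ k0, ∀ k, k0 ≤ k → x ∈ K k ∪ F k := by
      by_cases hxK : x ∈ ⋃ J, K J
      · obtain ⟨J, hJ⟩ := Set.mem_iUnion.1 hxK
        exact ⟨J, fun k hk => Or.inl (hKm hk hJ)⟩
      · obtain ⟨J, hJ⟩ := hFx x ⟨⟨hx.1, hxK⟩, hx.2⟩
        exact ⟨J, fun k hk => Or.inr (hFm hk hJ)⟩
    obtain ⟨k0, hk0⟩ := h1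
    refine ⟨k0, fun k hk a _ hcon => ?_⟩
    exact hm a k x hcon (hk0 k hk)
  -- the selection
  intro W b hWs hW
  obtain ⟨κ, hκ⟩ := hX (fun n k => W n (k + n) ∩ V (k + n)) (fun n k => max (b n (k + n)) (M (k + n)))
    (fun n k => COC_supp_inter (hWs n (k + n)) (hVs (k + n)) (le_max_left _ _) (le_max_right _ _)) (by
      intro n x hx
      by_cases hxC : x ∈ C
      · rw [hc] at hxC
        obtain ⟨a, rfl⟩ := hxC
        exact ⟨a, fun k hk h => hV1 a (k + n) (by omega) h.2⟩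
      · obtain ⟨k0, hk0⟩ := hW n x ⟨hx, hxC⟩
        exact ⟨k0, fun k hk h => hk0 (k + n) (by omega) h.1⟩)
  refine ⟨fun n => κ n + n, fun x hx => ?_⟩
  obtain ⟨n0, hn0⟩ := hκ x hx.1
  obtain ⟨k0, hk0⟩ := hV2 x hx
  refine ⟨max n0 k0, fun n hn h => ?_⟩
  have h1 : n0 ≤ n := le_trans (le_max_left _ _) hn
  have h2 : k0 ≤ n := le_trans (le_max_right _ _) hn
  exact hn0 n h1 ⟨h, hk0 (κ n + n) (by omega)⟩

end Pool.Agent.MM
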